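import Mathlib

/-!
Elementary lemmas for the sum of the reciprocal gaps between divisors.
-/

set_option autoImplicit false

namespace Pool.Agent.Helper718Gaps

open Finset

/-- A finite set of positive integers: comparison of a sum of an antitone function with the sum over
an initial segment. -/
theorem sum_le_sum_range (f : ℕ → ℝ) (hf : ∀ i j, 1 ≤ i → i ≤ j → f j ≤ f i) (M : Finset ℕ)
    (hM : ∀ m ∈ M, 1 ≤ m) : ∑ m ∈ M, f m ≤ ∑ i ∈ range M.card, f (i + 1) := by
  classical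
  induction M using Finset.induction_on_max with
  | empty => simp
  | insert a s hlt ih =>
    have has : a ∉ s := fun h => lt_irrefl _ (hlt a h)
    rw [sum_insert has, card_insert_of_notMem has, sum_range_succ]
    have h1 : ∑ m ∈ s, f m ≤ ∑ i ∈ range s.card, f (i + 1) :=
      ih (fun m hm => hM m (mem_insert_of_mem hm))
    have h2 : s.card + 1 ≤ a := by
      have hsub : s ⊆ Finset.Ico 1 a := by
        intro x hx
        exact Finset.mem_Ico.2 ⟨hM x (mem_insert_of_mem hx), hlt x hx⟩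
      have := card_le_card hsub
      rw [Nat.card_Ico] at this
      have ha : 1 ≤ a := hM a (mem_insert_self _ _)
      omega
    have h3 : f a ≤ f (s.card + 1) := hf _ _ (by omega) h2
    linarith

theorem sum_inv_le (M : Finset ℕ) (hM : ∀ m ∈ M, 1 ≤ m) :
    ∑ m ∈ M, (1 : ℝ) / m ≤ 1 + Real.log M.card := by
  have h1 := sum_le_sum_range (fun m => (1 : ℝ) / m) (by
    intro i j hi hij
    have : (0 : ℝ) < i := by exact_mod_cast hi
    exact one_div_le_one_div_of_le this (by exact_mod_cast hij)) M hM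
  refine h1.trans ?_
  have h2 := harmonic_le_one_add_log M.card
  refine le_trans (le_of_eq ?_) h2
  unfold harmonic
  push_cast
  refine sum_congr rfl ?_
  intro i _
  rw [one_div]

theorem sum_range_rpow_le (s : ℝ) (h0 : 0 < s) (h1 : s < 1) (k : ℕ) :
    ∑ i ∈ range k, ((i + 1 : ℕ) : ℝ) ^ (-s) ≤ (k : ℝ) ^ (1 - s) / (1 - s) := by
  have hs : 0 < 1 - s := by linarith
  induction k with
  | zero =>
    simp
    positivity
  | succ k ih =>
    rw [sum_range_succ]
    have hk : (0 : ℝ) < ((k + 1 : ℕ) : ℝ) := by positivity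
    have hB : (1 + (-(1 : ℝ) / ((k + 1 : ℕ) : ℝ))) ^ (1 - s) ≤ 1 + (1 - s) * (-(1 : ℝ) / ((k + 1 : ℕ) : ℝ)) := by
      apply rpow_one_add_le_one_add_mul_self _ hs.le (by linarith)
      rw [neg_div, neg_le_neg_iff, div_le_one hk]
      push_cast
      linarith [(Nat.cast_nonneg k : (0 : ℝ) ≤ k)]
    have hk2 : (k : ℝ) = ((k + 1 : ℕ) : ℝ) * (1 + (-(1 : ℝ) / ((k + 1 : ℕ) : ℝ))) := by
      push_cast
      field_simp
      ring
    have hnn : 0 ≤ 1 + (-(1 : ℝ) / ((k + 1 : ℕ) : ℝ)) := by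
      rw [neg_div]
      have : (1 : ℝ) / ((k + 1 : ℕ) : ℝ) ≤ 1 := by
        rw [div_le_one hk]; push_cast; linarith [(Nat.cast_nonneg k : (0 : ℝ) ≤ k)]
      linarith
    have h3 : (k : ℝ) ^ (1 - s) ≤ ((k + 1 : ℕ) : ℝ) ^ (1 - s) - (1 - s) * ((k + 1 : ℕ) : ℝ) ^ (-s) := by
      calc (k : ℝ) ^ (1 - s) = ((k + 1 : ℕ) : ℝ) ^ (1 - s) * (1 + (-(1 : ℝ) / ((k + 1 : ℕ) : ℝ))) ^ (1 - s) := by
            rw [← Real.mul_rpow hk.le hnn, ← hk2]
        _ ≤ ((k + 1 : ℕ) : ℝ) ^ (1 - s) * (1 + (1 - s) * (-(1 : ℝ) / ((k + 1 : ℕ) : ℝ))) := by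
            gcongr
        _ = ((k + 1 : ℕ) : ℝ) ^ (1 - s) - (1 - s) * (((k + 1 : ℕ) : ℝ) ^ (1 - s) / ((k + 1 : ℕ) : ℝ)) := by
            ring
        _ = ((k + 1 : ℕ) : ℝ) ^ (1 - s) - (1 - s) * ((k + 1 : ℕ) : ℝ) ^ (-s) := by
            congr 2
            rw [show (-s) = (1 - s) - 1 by ring, Real.rpow_sub_one hk.ne']
    have h4 : ∑ i ∈ range k, ((i + 1 : ℕ) : ℝ) ^ (-s) + ((k + 1 : ℕ) : ℝ) ^ (-s)
        ≤ (k : ℝ) ^ (1 - s) / (1 - s) + ((k + 1 : ℕ) : ℝ) ^ (-s) := by linarith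
    refine h4.trans ?_
    rw [le_div_iff₀ hs, add_mul, div_mul_cancel₀ _ hs.ne']
    linarith

theorem sum_rpow_le (s : ℝ) (h0 : 0 < s) (h1 : s < 1) (M : Finset ℕ) (hM : ∀ m ∈ M, 1 ≤ m) :
    ∑ m ∈ M, (m : ℝ) ^ (-s) ≤ (M.card : ℝ) ^ (1 - s) / (1 - s) := by
  refine (sum_le_sum_range (fun m => (m : ℝ) ^ (-s)) ?_ M hM).trans (sum_range_rpow_le s h0 h1 _)
  intro i j hi hij
  have hi' : (0 : ℝ) < i := by exact_mod_cast hi
  exact Real.rpow_le_rpow_of_nonpos hi' (by exact_mod_cast hij) (by linarith)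

/-- Sums over divisors of a strongly multiplicative weight. -/
theorem sum_divisors_prod (g : ℕ → ℝ) (n : ℕ) (hn : n ≠ 0) :
    ∑ m ∈ n.divisors, ∏ p ∈ m.primeFactors, g p
      = ∏ p ∈ n.primeFactors, (1 + (n.factorization p : ℝ) * g p) := by
  classical
  induction n using Nat.recOnPosPrimePosCoprime with
  | zero => exact absurd rfl hn
  | one => simp
  | prime_pow p k hp hk =>
    rw [Nat.sum_divisors_prime_pow hp, Nat.primeFactors_prime_pow hk.ne' hp, prod_singleton,
      sum_range_succ']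
    have h1 : ∀ i ∈ range k, ∏ q ∈ (p ^ (i + 1)).primeFactors, g q = g p := by
      intro i _
      rw [Nat.primeFactors_prime_pow (Nat.succ_ne_zero i) hp, prod_singleton]
    rw [sum_congr rfl h1]
    simp [hp.factorization_self]
    ring
  | coprime a b ha hb hab iha ihb =>
    have ha0 : a ≠ 0 := by omega
    have hb0 : b ≠ 0 := by omega
    have key : ∑ m ∈ (a * b).divisors, ∏ p ∈ m.primeFactors, g p
        = ∑ x ∈ a.divisors ×ˢ b.divisors, ∏ p ∈ (x.1 * x.2).primeFactors, g p := by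
      rw [← sum_image (f := fun m => ∏ p ∈ m.primeFactors, g p) (g := fun x : ℕ × ℕ => x.1 * x.2)
        hab.mul_injOn_divisors]
      refine sum_congr ?_ fun _ _ => rfl
      rw [← Finset.mul_def, Nat.divisors_mul]
    rw [key, sum_product]
    have h2 : ∀ x ∈ a.divisors, ∀ y ∈ b.divisors,
        ∏ p ∈ (x * y).primeFactors, g p = (∏ p ∈ x.primeFactors, g p) * ∏ p ∈ y.primeFactors, g p := by
      intro x hx y hy
      have hxy : x.Coprime y :=
        (hab.coprime_dvd_left (Nat.dvd_of_mem_divisors hx)).coprime_dvd_right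
          (Nat.dvd_of_mem_divisors hy)
      rw [hxy.primeFactors_mul, prod_union hxy.disjoint_primeFactors]
    rw [sum_congr rfl fun x hx => sum_congr rfl (h2 x hx)]
    rw [← sum_mul_sum, iha ha0, ihb hb0, hab.primeFactors_mul, prod_union hab.disjoint_primeFactors]
    congr 1
    · refine prod_congr rfl fun p hp => ?_
      rw [Nat.factorization_eq_of_coprime_left hab (by simpa using hp)]
    · refine prod_congr rfl fun p hp => ?_
      rw [Nat.factorization_eq_of_coprime_right hab (by simpa using hp)]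

end Pool.Agent.Helper718Gaps
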