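import Pool.Agent.Helper718_gaps.A

/-!
The reduction to coprime pairs of divisors, and the number of coprime pairs with a given difference.
-/

set_option autoImplicit false

namespace Pool.Agent.Helper718Gaps

open Finset

/-- Coprime pairs `a < b` of divisors of `n`. -/
def cop (n : ℕ) : Finset (ℕ × ℕ) :=
  (n.divisors ×ˢ n.divisors).filter (fun x => x.1 < x.2 ∧ x.1.Coprime x.2)

theorem mem_cop {n : ℕ} {x : ℕ × ℕ} :
    x ∈ cop n ↔ (x.1 ∈ n.divisors ∧ x.2 ∈ n.divisors) ∧ x.1 < x.2 ∧ x.1.Coprime x.2 := by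
  unfold cop
  rw [mem_filter, mem_product]

theorem cop_mul_mem {n : ℕ} {x : ℕ × ℕ} (hx : x ∈ cop n) : x.1 * x.2 ∈ n.divisors := by
  rw [mem_cop] at hx
  rw [Nat.mem_divisors]
  exact ⟨Nat.Coprime.mul_dvd_of_dvd_of_dvd hx.2.2 (Nat.dvd_of_mem_divisors hx.1.1)
    (Nat.dvd_of_mem_divisors hx.1.2), (Nat.mem_divisors.1 hx.1.1).2⟩

theorem cop_pos {n : ℕ} {x : ℕ × ℕ} (hx : x ∈ cop n) : 0 < x.1 ∧ 0 < x.2 := by
  rw [mem_cop] at hx
  exact ⟨Nat.pos_of_mem_divisors hx.1.1, Nat.pos_of_mem_divisors hx.1.2⟩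

theorem gap_sum_le (n : ℕ) :
    ∑ d ∈ n.divisors, ∑ e ∈ n.divisors.filter (fun e => d < e), (1 : ℝ) / ((e : ℝ) - (d : ℝ))
      ≤ (∑ g ∈ n.divisors, (1 : ℝ) / g) * ∑ x ∈ cop n, (1 : ℝ) / ((x.2 : ℝ) - (x.1 : ℝ)) := by
  classical
  have h1 : ∑ d ∈ n.divisors, ∑ e ∈ n.divisors.filter (fun e => d < e),
      (1 : ℝ) / ((e : ℝ) - (d : ℝ)) =
      ∑ x ∈ (n.divisors ×ˢ n.divisors).filter (fun x => x.1 < x.2),
        (1 : ℝ) / ((x.2 : ℝ) - (x.1 : ℝ)) := by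
    rw [sum_filter, sum_product]
    refine sum_congr rfl fun d _ => ?_
    rw [sum_filter]
  rw [h1, sum_mul_sum, ← sum_product']
  let φ : ℕ × ℕ → ℕ × (ℕ × ℕ) := fun x =>
    (Nat.gcd x.1 x.2, (x.1 / Nat.gcd x.1 x.2, x.2 / Nat.gcd x.1 x.2))
  have hval : ∀ x ∈ (n.divisors ×ˢ n.divisors).filter (fun x => x.1 < x.2),
      (1 : ℝ) / ((x.2 : ℝ) - (x.1 : ℝ)) =
        (fun y : ℕ × (ℕ × ℕ) => (1 : ℝ) / (y.1 : ℝ) * ((1 : ℝ) / ((y.2.2 : ℝ) - (y.2.1 : ℝ)))) (φ x) := by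
    intro x hx
    rw [mem_filter, mem_product] at hx
    have hx1 : 0 < x.1 := Nat.pos_of_mem_divisors hx.1.1
    have hg : 0 < Nat.gcd x.1 x.2 := Nat.gcd_pos_of_pos_left _ hx1
    have hg' : ((Nat.gcd x.1 x.2 : ℕ) : ℝ) ≠ 0 := by exact_mod_cast hg.ne'
    simp only [φ]
    rw [Nat.cast_div (Nat.gcd_dvd_left _ _) hg', Nat.cast_div (Nat.gcd_dvd_right _ _) hg']
    have : (x.1 : ℝ) < x.2 := by exact_mod_cast hx.2
    have h3 : (x.2 : ℝ) - x.1 ≠ 0 := by linarith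
    field_simp
  have hinj : Set.InjOn φ ((n.divisors ×ˢ n.divisors).filter (fun x => x.1 < x.2) : Finset (ℕ × ℕ)) := by
    intro x hx y hy hxy
    rw [mem_coe, mem_filter, mem_product] at hx hy
    simp only [φ, Prod.mk.injEq] at hxy
    obtain ⟨hg, ha, hb⟩ := hxy
    ext
    · rw [← Nat.div_mul_cancel (Nat.gcd_dvd_left x.1 x.2), ha, hg,
        Nat.div_mul_cancel (Nat.gcd_dvd_left y.1 y.2)]
    · rw [← Nat.div_mul_cancel (Nat.gcd_dvd_right x.1 x.2), hb, hg,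
        Nat.div_mul_cancel (Nat.gcd_dvd_right y.1 y.2)]
  rw [sum_congr rfl hval, ← sum_image (f := fun y : ℕ × (ℕ × ℕ) =>
    (1 : ℝ) / (y.1 : ℝ) * ((1 : ℝ) / ((y.2.2 : ℝ) - (y.2.1 : ℝ)))) hinj]
  refine sum_le_sum_of_subset_of_nonneg ?_ ?_
  · intro y hy
    rw [mem_image] at hy
    obtain ⟨x, hx, rfl⟩ := hy
    rw [mem_filter, mem_product] at hx
    have hx1 : 0 < x.1 := Nat.pos_of_mem_divisors hx.1.1
    have hg : 0 < Nat.gcd x.1 x.2 := Nat.gcd_pos_of_pos_left _ hx1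
    have hn : n ≠ 0 := (Nat.mem_divisors.1 hx.1.1).2
    rw [mem_product, mem_cop]
    simp only [φ]
    refine ⟨Nat.mem_divisors.2 ⟨(Nat.gcd_dvd_left _ _).trans (Nat.dvd_of_mem_divisors hx.1.1), hn⟩,
      ⟨Nat.mem_divisors.2 ⟨(Nat.div_dvd_of_dvd (Nat.gcd_dvd_left _ _)).trans
        (Nat.dvd_of_mem_divisors hx.1.1), hn⟩, Nat.mem_divisors.2
        ⟨(Nat.div_dvd_of_dvd (Nat.gcd_dvd_right _ _)).trans
        (Nat.dvd_of_mem_divisors hx.1.2), hn⟩⟩, ?_, Nat.coprime_div_gcd_div_gcd hg⟩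
    exact Nat.div_lt_div_of_lt_of_dvd (Nat.gcd_dvd_right _ _) hx.2
  · intro y hy _
    rw [mem_product, mem_cop] at hy
    have h2 : (y.2.1 : ℝ) < y.2.2 := by exact_mod_cast hy.2.2.1
    have h3 : 0 < (y.2.2 : ℝ) - y.2.1 := by linarith
    positivity

/-- `3 c ≤ r + s + t` if `r s t = c ^ 3`. -/
theorem amgm3 {r s t c : ℝ} (hr : 0 < r) (hs : 0 < s) (ht : 0 < t)
    (h : r * s * t = c ^ 3) : 3 * c ≤ r + s + t := by
  have h1 : 27 * (r * s * t) ≤ (r + s + t) ^ 3 := by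
    nlinarith [mul_nonneg hr.le (sq_nonneg (s - t)), mul_nonneg hs.le (sq_nonneg (r - t)),
      mul_nonneg ht.le (sq_nonneg (r - s)), mul_nonneg hr.le (sq_nonneg (r - s)),
      mul_nonneg hr.le (sq_nonneg (r - t)), mul_nonneg hs.le (sq_nonneg (r - s)),
      mul_nonneg hs.le (sq_nonneg (s - t)), mul_nonneg ht.le (sq_nonneg (r - t)),
      mul_nonneg ht.le (sq_nonneg (s - t))]
  rw [h] at h1
  have h2 : (3 * c) ^ 3 ≤ (r + s + t) ^ 3 := by nlinarith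
  exact le_of_pow_le_pow_left₀ (by norm_num) (by positivity) h2

theorem prod_primeFactors_mul {g : ℕ → ℝ} {a b : ℕ} (h : a.Coprime b) :
    ∏ p ∈ (a * b).primeFactors, g p = (∏ p ∈ a.primeFactors, g p) * ∏ p ∈ b.primeFactors, g p := by
  rw [h.primeFactors_mul, prod_union h.disjoint_primeFactors]

/-- Hölder with multiplicative weights: number of coprime pairs of divisors with difference `δ`. -/
theorem card_diff_le (n δ : ℕ) (hn : n ≠ 0) (y : ℕ → ℝ) (hy : ∀ p, 0 < y p) :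
    (((cop n).filter (fun x => x.2 = x.1 + δ)).card : ℝ) ^ 3 ≤
      ∏ p ∈ n.primeFactors, ((1 + (n.factorization p : ℝ) * y p) ^ 2 *
        (1 + (n.factorization p : ℝ) * (y p)⁻¹)) := by
  classical
  set X := (cop n).filter (fun x => x.2 = x.1 + δ) with hX
  set U : ℕ → ℝ := fun m => ∏ p ∈ m.primeFactors, y p with hU
  set V : ℕ → ℝ := fun m => ∏ p ∈ m.primeFactors, (y p)⁻¹ with hV
  have hUpos : ∀ m, 0 < U m := fun m => prod_pos fun p _ => hy p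
  have hVpos : ∀ m, 0 < V m := fun m => prod_pos fun p _ => inv_pos.2 (hy p)
  set A := ∑ m ∈ n.divisors, U m with hA
  set W := ∑ m ∈ n.divisors, V m with hW
  have hne : n.divisors.Nonempty := ⟨1, Nat.one_mem_divisors.2 hn⟩
  have hApos : 0 < A := sum_pos (fun m _ => hUpos m) hne
  have hWpos : 0 < W := sum_pos (fun m _ => hVpos m) hne
  have hAeq : A = ∏ p ∈ n.primeFactors, (1 + (n.factorization p : ℝ) * y p) :=
    sum_divisors_prod y n hn
  have hWeq : W = ∏ p ∈ n.primeFactors, (1 + (n.factorization p : ℝ) * (y p)⁻¹) :=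
    sum_divisors_prod (fun p => (y p)⁻¹) n hn
  have hgoal : ∏ p ∈ n.primeFactors, ((1 + (n.factorization p : ℝ) * y p) ^ 2 *
        (1 + (n.factorization p : ℝ) * (y p)⁻¹)) = A ^ 2 * W := by
    rw [prod_mul_distrib, prod_pow, ← hAeq, ← hWeq]
  rw [hgoal]
  -- the cube root
  obtain ⟨c, hc, hc3⟩ : ∃ c : ℝ, 0 < c ∧ c ^ 3 = (A ^ 2 * W)⁻¹ := by
    refine ⟨((A ^ 2 * W)⁻¹) ^ ((1 : ℝ) / 3), by positivity, ?_⟩
    rw [← Real.rpow_natCast, ← Real.rpow_mul (by positivity)]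
    norm_num
  have hpt : ∀ x ∈ X, 3 * c ≤ U x.1 / A + U x.2 / A + V (x.1 * x.2) / W := by
    intro x hx
    rw [hX, mem_filter, mem_cop] at hx
    have hcop : x.1.Coprime x.2 := hx.1.2.2
    refine amgm3 (div_pos (hUpos _) hApos) (div_pos (hUpos _) hApos) (div_pos (hVpos _) hWpos) ?_
    have h1 : U x.1 * U x.2 * V (x.1 * x.2) = 1 := by
      have e1 : U x.1 * U x.2 = U (x.1 * x.2) := (prod_primeFactors_mul hcop).symm
      rw [e1, hU, hV]
      simp only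
      rw [← prod_mul_distrib]
      exact prod_eq_one fun p _ => mul_inv_cancel₀ (hy p).ne'
    rw [hc3]
    have : U x.1 / A * (U x.2 / A) * (V (x.1 * x.2) / W)
        = (U x.1 * U x.2 * V (x.1 * x.2)) / (A ^ 2 * W) := by
      field_simp
    rw [this, h1, one_div]
  have hsum : (X.card : ℝ) * (3 * c) ≤
      (∑ x ∈ X, U x.1) / A + (∑ x ∈ X, U x.2) / A + (∑ x ∈ X, V (x.1 * x.2)) / W := by
    rw [sum_div, sum_div, sum_div, ← sum_add_distrib, ← sum_add_distrib, ← nsmul_eq_mul, ← sum_const]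
    exact sum_le_sum hpt
  have hmem : ∀ x ∈ X, x.1 ∈ n.divisors ∧ x.2 ∈ n.divisors ∧ x.1 * x.2 ∈ n.divisors ∧
      x.2 = x.1 + δ := by
    intro x hx
    rw [hX, mem_filter] at hx
    exact ⟨(mem_cop.1 hx.1).1.1, (mem_cop.1 hx.1).1.2, cop_mul_mem hx.1, hx.2⟩
  have i1 : ∑ x ∈ X, U x.1 ≤ A := by
    have hinj : Set.InjOn (fun x : ℕ × ℕ => x.1) (X : Set (ℕ × ℕ)) := by
      intro a ha b hb hab
      have ha' := (hmem a ha).2.2.2
      have hb' := (hmem b hb).2.2.2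
      simp only at hab
      ext
      · exact hab
      · omega
    rw [← sum_image (f := U) hinj]
    refine sum_le_sum_of_subset_of_nonneg ?_ fun m _ _ => (hUpos m).le
    intro m hm
    obtain ⟨x, hx, rfl⟩ := mem_image.1 hm
    exact (hmem x hx).1
  have i2 : ∑ x ∈ X, U x.2 ≤ A := by
    have hinj : Set.InjOn (fun x : ℕ × ℕ => x.2) (X : Set (ℕ × ℕ)) := by
      intro a ha b hb hab
      have ha' := (hmem a ha).2.2.2
      have hb' := (hmem b hb).2.2.2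
      simp only at hab
      ext
      · omega
      · exact hab
    rw [← sum_image (f := U) hinj]
    refine sum_le_sum_of_subset_of_nonneg ?_ fun m _ _ => (hUpos m).le
    intro m hm
    obtain ⟨x, hx, rfl⟩ := mem_image.1 hm
    exact (hmem x hx).2.1
  have i3 : ∑ x ∈ X, V (x.1 * x.2) ≤ W := by
    have hinj : Set.InjOn (fun x : ℕ × ℕ => x.1 * x.2) (X : Set (ℕ × ℕ)) := by
      intro a ha b hb hab
      have ha' := (hmem a ha).2.2.2
      have hb' := (hmem b hb).2.2.2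
      have hapos := Nat.pos_of_mem_divisors (hmem a ha).1
      have hbpos := Nat.pos_of_mem_divisors (hmem b hb).1
      simp only at hab
      rw [ha', hb'] at hab
      have h1 : a.1 = b.1 := by
        rcases lt_trichotomy a.1 b.1 with h | h | h
        · exfalso
          have : a.1 * (a.1 + δ) < b.1 * (b.1 + δ) := Nat.mul_lt_mul'' h (by omega)
          omega
        · exact h
        · exfalso
          have : b.1 * (b.1 + δ) < a.1 * (a.1 + δ) := Nat.mul_lt_mul'' h (by omega)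
          omega
      ext
      · exact h1
      · omega
    rw [← sum_image (f := V) hinj]
    refine sum_le_sum_of_subset_of_nonneg ?_ fun m _ _ => (hVpos m).le
    intro m hm
    obtain ⟨x, hx, rfl⟩ := mem_image.1 hm
    exact (hmem x hx).2.2.1
  have h3 : (X.card : ℝ) * (3 * c) ≤ 3 := by
    have a1 : (∑ x ∈ X, U x.1) / A ≤ 1 := (div_le_one hApos).2 i1
    have a2 : (∑ x ∈ X, U x.2) / A ≤ 1 := (div_le_one hApos).2 i2
    have a3 : (∑ x ∈ X, V (x.1 * x.2)) / W ≤ 1 := (div_le_one hWpos).2 i3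
    linarith
  have h4 : (X.card : ℝ) * c ≤ 1 := by linarith
  have h5 : ((X.card : ℝ) * c) ^ 3 ≤ 1 := pow_le_one₀ (by positivity) h4
  rw [mul_pow, hc3] at h5
  have h6 : 0 < A ^ 2 * W := by positivity
  rwa [← div_eq_mul_inv, div_le_one h6] at h5

theorem local_bound (e : ℕ) (he : 1 ≤ e) :
    ((1 + (e : ℝ) * ((e : ℝ) + 1)⁻¹) ^ 2 * (1 + (e : ℝ) * (((e : ℝ) + 1)⁻¹)⁻¹)) ^ 13 ≤
      ((e : ℝ) + 1) ^ 36 := by
  have hpos : (0 : ℝ) < (e : ℝ) + 1 := by positivity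
  have hK : (1 + (e : ℝ) * ((e : ℝ) + 1)⁻¹) ^ 2 * (1 + (e : ℝ) * (((e : ℝ) + 1)⁻¹)⁻¹)
      = ((2 * e + 1) ^ 2 * (e ^ 2 + e + 1)) / (e + 1) ^ 2 := by
    rw [inv_inv]
    field_simp
    ring
  rw [hK, div_pow, div_le_iff₀ (by positivity), ← pow_mul, ← pow_add]
  by_cases h6 : 6 ≤ e
  · have h1 : ((2 * (e : ℝ) + 1) ^ 2 * ((e : ℝ) ^ 2 + e + 1)) ≤ 4 * ((e : ℝ) + 1) ^ 4 := by
      have he0 : (0 : ℝ) ≤ e := by positivity
      have a1 : (2 * (e : ℝ) + 1) ^ 2 ≤ 4 * ((e : ℝ) + 1) ^ 2 := by nlinarith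
      have a2 : ((e : ℝ) ^ 2 + e + 1) ≤ ((e : ℝ) + 1) ^ 2 := by nlinarith
      calc ((2 * (e : ℝ) + 1) ^ 2 * ((e : ℝ) ^ 2 + e + 1))
          ≤ (4 * ((e : ℝ) + 1) ^ 2) * ((e : ℝ) + 1) ^ 2 := by gcongr
        _ = 4 * ((e : ℝ) + 1) ^ 4 := by ring
    calc ((2 * (e : ℝ) + 1) ^ 2 * ((e : ℝ) ^ 2 + e + 1)) ^ 13
        ≤ (4 * ((e : ℝ) + 1) ^ 4) ^ 13 := by gcongr
      _ = 4 ^ 13 * ((e : ℝ) + 1) ^ 52 := by ring
      _ ≤ ((e : ℝ) + 1) ^ 10 * ((e : ℝ) + 1) ^ 52 := by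
          gcongr
          have h7 : (7 : ℝ) ≤ (e : ℝ) + 1 := by
            have : (6 : ℝ) ≤ e := by exact_mod_cast h6
            linarith
          calc (4 : ℝ) ^ 13 ≤ 7 ^ 10 := by norm_num
            _ ≤ ((e : ℝ) + 1) ^ 10 := by gcongr
      _ = ((e : ℝ) + 1) ^ (36 + 2 * 13) := by rw [← pow_add]
  · interval_cases e <;> norm_num

/-- **Few coprime pairs of divisors with a given difference**: at most `τ(n)^(12/13)`. -/
theorem card_diff_pow_le (n δ : ℕ) (hn : n ≠ 0) :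
    ((cop n).filter (fun x => x.2 = x.1 + δ)).card ^ 13 ≤ n.divisors.card ^ 12 := by
  have h1 := card_diff_le n δ hn (fun p => ((n.factorization p : ℝ) + 1)⁻¹) (fun p => by positivity)
  set k := ((cop n).filter (fun x => x.2 = x.1 + δ)).card
  have h2 : ((k : ℝ) ^ 3) ^ 13 ≤ ∏ p ∈ n.primeFactors, ((n.factorization p : ℝ) + 1) ^ 36 := by
    refine (pow_le_pow_left₀ (by positivity) h1 13).trans ?_
    rw [← prod_pow]
    refine prod_le_prod (fun p _ => by positivity) fun p hp => ?_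
    refine local_bound _ ?_
    exact (Nat.mem_primeFactors.1 hp).1.factorization_pos_of_dvd hn (Nat.mem_primeFactors.1 hp).2.1
  rw [prod_pow] at h2
  have h3 : (∏ p ∈ n.primeFactors, ((n.factorization p : ℝ) + 1)) = (n.divisors.card : ℝ) := by
    rw [Nat.card_divisors hn]
    push_cast
    rfl
  rw [h3, ← pow_mul] at h2
  have h4 : ((k : ℝ) ^ 13) ^ 3 ≤ ((n.divisors.card : ℝ) ^ 12) ^ 3 := by
    rw [← pow_mul, ← pow_mul]
    exact h2
  have h5 := le_of_pow_le_pow_left₀ (by norm_num) (by positivity) h4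
  exact_mod_cast h5

end Pool.Agent.Helper718Gaps
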