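import Pool.Agent.Helper718_gaps.B

/-!
The contributions of the closest and of the other factorisations.
-/

set_option autoImplicit false

namespace Pool.Agent.Helper718Gaps

open Finset

/-- Two factorisations with the same product and the same sum agree. -/
theorem pair_eq {x y : ℕ × ℕ} (hx : x.1 < x.2) (hy : y.1 < y.2) (hm : x.1 * x.2 = y.1 * y.2)
    (hs : x.1 + x.2 = y.1 + y.2) : x = y := by
  have h : ((x.1 : ℤ) - y.1) * ((x.1 : ℤ) - y.2) = 0 := by
    have hm' : (x.1 : ℤ) * x.2 = y.1 * y.2 := by exact_mod_cast hm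
    have hs' : (x.1 : ℤ) + x.2 = y.1 + y.2 := by exact_mod_cast hs
    have : (x.2 : ℤ) = y.1 + y.2 - x.1 := by linarith
    rw [this] at hm'
    linarith
  rcases mul_eq_zero.1 h with h1 | h1
  · have : x.1 = y.1 := by omega
    ext
    · exact this
    · omega
  · exfalso
    have : x.1 = y.2 := by omega
    omega

/-- All factorisations of `N` but the closest one: the reciprocal gaps. -/
theorem far_sum_le (A : Finset (ℕ × ℕ)) (N : ℕ) (hN : 0 < N)
    (hA : ∀ x ∈ A, x.1 * x.2 = N ∧ x.1 < x.2) (x₀ : ℕ × ℕ) (hx₀ : x₀ ∈ A)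
    (hmin : ∀ x ∈ A, x₀.1 + x₀.2 ≤ x.1 + x.2) :
    ∑ x ∈ A.erase x₀, (1 : ℝ) / ((x.2 : ℝ) - (x.1 : ℝ)) ≤
      Real.sqrt A.card / (Real.sqrt (Real.sqrt N)) := by
  classical
  have hN' : (0 : ℝ) < N := by exact_mod_cast hN
  set q := Real.sqrt (Real.sqrt N) with hq
  have hqpos : 0 < q := Real.sqrt_pos.2 (Real.sqrt_pos.2 hN')
  have hq2 : q ^ 2 = Real.sqrt N := Real.sq_sqrt (Real.sqrt_nonneg _)
  have hq4 : q ^ 4 = N := by
    have : q ^ 4 = (q ^ 2) ^ 2 := by ring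
    rw [this, hq2, Real.sq_sqrt hN'.le]
  set f : ℕ × ℕ → ℕ := fun x => x.1 + x.2 - (x₀.1 + x₀.2) with hf
  have hfpos : ∀ x ∈ A.erase x₀, 1 ≤ f x := by
    intro x hx
    rw [mem_erase] at hx
    have h1 := hmin x hx.2
    have h2 : x.1 + x.2 ≠ x₀.1 + x₀.2 := by
      intro h
      exact hx.1 (pair_eq (hA x hx.2).2 (hA x₀ hx₀).2 ((hA x hx.2).1.trans (hA x₀ hx₀).1.symm) h)
    simp only [hf]
    omega
  have hfinj : Set.InjOn f (A.erase x₀ : Finset (ℕ × ℕ)) := by
    intro x hx y hy hxy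
    rw [mem_coe, mem_erase] at hx hy
    simp only [hf] at hxy
    have h1 := hmin x hx.2
    have h2 := hmin y hy.2
    exact pair_eq (hA x hx.2).2 (hA y hy.2).2 ((hA x hx.2).1.trans (hA y hy.2).1.symm) (by omega)
  have hpt : ∀ x ∈ A.erase x₀, (1 : ℝ) / ((x.2 : ℝ) - (x.1 : ℝ)) ≤
      (1 / (2 * q)) * ((f x : ℕ) : ℝ) ^ (-(1 / 2 : ℝ)) := by
    intro x hx
    have hf1 := hfpos x hx
    rw [mem_erase] at hx
    have hxA := hA x hx.2
    have hx0A := hA x₀ hx₀
    have hlt : (x.1 : ℝ) < x.2 := by exact_mod_cast hxA.2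
    have hm : (x.1 : ℝ) * x.2 = N := by exact_mod_cast hxA.1
    have hm0 : (x₀.1 : ℝ) * x₀.2 = N := by exact_mod_cast hx0A.1
    have hfx : (f x : ℝ) = (x.1 + x.2) - (x₀.1 + x₀.2) := by
      simp only [hf]
      rw [Nat.cast_sub (hmin x hx.2)]
      push_cast
      ring
    have hfge : (1 : ℝ) ≤ f x := by exact_mod_cast hf1
    have hfp : (0 : ℝ) < f x := by linarith
    -- s₀ ≥ 2 q²
    have hs0 : 2 * q ^ 2 ≤ (x₀.1 : ℝ) + x₀.2 := by
      have h1 : (2 * q ^ 2) ^ 2 ≤ ((x₀.1 : ℝ) + x₀.2) ^ 2 := by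
        have : (2 * q ^ 2) ^ 2 = 4 * q ^ 4 := by ring
        rw [this, hq4, ← hm0]
        nlinarith [sq_nonneg ((x₀.1 : ℝ) - x₀.2)]
      exact le_of_sq_le_sq h1 (by positivity)
    have hsq : (2 * q * Real.sqrt (f x)) ^ 2 ≤ ((x.2 : ℝ) - x.1) ^ 2 := by
      have e1 : (2 * q * Real.sqrt (f x)) ^ 2 = 4 * q ^ 2 * f x := by
        rw [mul_pow, Real.sq_sqrt hfp.le]; ring
      rw [e1]
      have e2 : ((x.2 : ℝ) - x.1) ^ 2 = ((x.1 : ℝ) + x.2) ^ 2 - 4 * N := by rw [← hm]; ring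
      have e3 : 4 * (N : ℝ) ≤ ((x₀.1 : ℝ) + x₀.2) ^ 2 := by
        rw [← hm0]; nlinarith [sq_nonneg ((x₀.1 : ℝ) - x₀.2)]
      have e4 : ((x.1 : ℝ) + x.2) = (x₀.1 + x₀.2) + f x := by rw [hfx]; ring
      rw [e2, e4]
      nlinarith [mul_le_mul_of_nonneg_left hs0 hfp.le]
    have hge : 2 * q * Real.sqrt (f x) ≤ (x.2 : ℝ) - x.1 :=
      le_of_sq_le_sq hsq (by linarith)
    have hp2 : 0 < 2 * q * Real.sqrt (f x) := by
      have := Real.sqrt_pos.2 hfp
      positivity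
    calc (1 : ℝ) / ((x.2 : ℝ) - (x.1 : ℝ)) ≤ 1 / (2 * q * Real.sqrt (f x)) :=
          one_div_le_one_div_of_le hp2 hge
      _ = (1 / (2 * q)) * (f x : ℝ) ^ (-(1 / 2 : ℝ)) := by
          rw [Real.rpow_neg hfp.le, ← Real.sqrt_eq_rpow]
          field_simp
  have h1 : ∑ x ∈ A.erase x₀, (1 : ℝ) / ((x.2 : ℝ) - (x.1 : ℝ)) ≤
      (1 / (2 * q)) * ∑ m ∈ (A.erase x₀).image f, ((m : ℕ) : ℝ) ^ (-(1 / 2 : ℝ)) := by
    rw [sum_image hfinj, mul_sum]
    exact sum_le_sum hpt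
  have h2 : ∑ m ∈ (A.erase x₀).image f, ((m : ℕ) : ℝ) ^ (-(1 / 2 : ℝ)) ≤
      (((A.erase x₀).image f).card : ℝ) ^ (1 - 1 / 2 : ℝ) / (1 - 1 / 2) :=
    sum_rpow_le (1 / 2) (by norm_num) (by norm_num) _ (by
      intro m hm
      obtain ⟨x, hx, rfl⟩ := mem_image.1 hm
      exact hfpos x hx)
  have h3 : (((A.erase x₀).image f).card : ℝ) ^ (1 - 1 / 2 : ℝ) ≤ Real.sqrt A.card := by
    have e : (1 - 1 / 2 : ℝ) = 1 / 2 := by norm_num
    rw [e, ← Real.sqrt_eq_rpow]
    apply Real.sqrt_le_sqrt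
    exact_mod_cast (card_image_le.trans (card_erase_le))
  calc ∑ x ∈ A.erase x₀, (1 : ℝ) / ((x.2 : ℝ) - (x.1 : ℝ))
      ≤ (1 / (2 * q)) * (Real.sqrt A.card / (1 - 1 / 2)) := by
        refine h1.trans ?_
        have : 0 ≤ 1 / (2 * q) := by positivity
        refine mul_le_mul_of_nonneg_left (h2.trans ?_) this
        exact div_le_div_of_nonneg_right h3 (by norm_num)
    _ = Real.sqrt A.card / q := by
        field_simp
        norm_num

/-- The number of coprime factorisations. -/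
theorem card_fiber_le (A : Finset (ℕ × ℕ)) (N : ℕ) (hN : 0 < N)
    (hA : ∀ x ∈ A, x.1 * x.2 = N ∧ x.1.Coprime x.2) : A.card ≤ 2 ^ N.primeFactors.card := by
  classical
  rw [← card_powerset]
  refine card_le_card_of_injOn (fun x => x.1.primeFactors) ?_ ?_
  · intro x hx
    rw [mem_coe, mem_powerset]
    have := (hA x hx).1
    exact Nat.primeFactors_mono ⟨x.2, this.symm⟩ hN.ne'
  · intro x hx y hy hxy
    have hx' := hA x hx
    have hy' := hA y hy
    simp only at hxy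
    have key : ∀ u v : ℕ × ℕ, u.1 * u.2 = N → v.1 * v.2 = N → v.1.Coprime v.2 →
        u.1.primeFactors = v.1.primeFactors → u.1 ∣ v.1 := by
      intro u v hu hv hcv hpf
      have hu1 : u.1 ≠ 0 := by rintro h; rw [h, zero_mul] at hu; omega
      have hv1 : v.1 ≠ 0 := by rintro h; rw [h, zero_mul] at hv; omega
      have hv2 : v.2 ≠ 0 := by rintro h; rw [h, mul_zero] at hv; omega
      have hc : u.1.Coprime v.2 := by
        rw [← Nat.disjoint_primeFactors hu1 hv2, hpf, Nat.disjoint_primeFactors hv1 hv2]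
        exact hcv
      exact hc.dvd_of_dvd_mul_right (hv ▸ hu ▸ dvd_mul_right _ _)
    have h1 : x.1 = y.1 := Nat.dvd_antisymm (key x y hx'.1 hy'.1 hy'.2 hxy)
      (key y x hy'.1 hx'.1 hx'.2 hxy.symm)
    have hy1 : 0 < y.1 := Nat.pos_of_ne_zero (by
      intro h
      have := hy'.1
      rw [h, zero_mul] at this
      omega)
    ext
    · exact h1
    · have h2 : y.1 * x.2 = y.1 * y.2 := by
        rw [hy'.1, ← h1, hx'.1]
      exact Nat.eq_of_mul_eq_mul_left hy1 h2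

theorem sixteen_pow_le (N : ℕ) (hN : 0 < N) : (16 : ℝ) ^ N.primeFactors.card ≤ 559 * N := by
  classical
  set c : ℕ → ℝ := fun p => if p < 16 then 16 / p else 1 with hc
  have h1 : (16 : ℝ) ^ N.primeFactors.card = ∏ p ∈ N.primeFactors, (16 : ℝ) := by
    rw [prod_const]
  rw [h1]
  have h2 : ∏ p ∈ N.primeFactors, (16 : ℝ) ≤ ∏ p ∈ N.primeFactors, ((p : ℝ) * c p) := by
    refine prod_le_prod (fun p _ => by norm_num) fun p hp => ?_
    have hp0 : (0 : ℝ) < p := by exact_mod_cast (Nat.prime_of_mem_primeFactors hp).pos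
    simp only [hc]
    split_ifs with h
    · rw [mul_div_cancel₀ _ hp0.ne']
    · rw [mul_one]
      exact_mod_cast not_lt.1 h
  refine h2.trans ?_
  rw [prod_mul_distrib]
  have h3 : ∏ p ∈ N.primeFactors, (p : ℝ) ≤ N := by
    have := Nat.le_of_dvd hN (Nat.prod_primeFactors_dvd N)
    rw [← Nat.cast_prod]
    exact Nat.cast_le.2 this
  have h4 : ∏ p ∈ N.primeFactors, c p ≤ 559 := by
    have hsub : N.primeFactors.filter (fun p => p < 16) ⊆ ({2, 3, 5, 7, 11, 13} : Finset ℕ) := by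
      intro p hp
      rw [mem_filter] at hp
      have hpp := Nat.prime_of_mem_primeFactors hp.1
      have h16 := hp.2
      interval_cases p <;> first | decide | (exfalso; revert hpp; decide)
    have e1 : ∏ p ∈ N.primeFactors, c p = ∏ p ∈ N.primeFactors.filter (fun p => p < 16), (16 / (p : ℝ)) := by
      rw [prod_filter]
    rw [e1]
    calc ∏ p ∈ N.primeFactors.filter (fun p => p < 16), (16 / (p : ℝ))
        ≤ ∏ p ∈ ({2, 3, 5, 7, 11, 13} : Finset ℕ), (16 / (p : ℝ)) := by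
          refine prod_le_prod_of_subset_of_one_le hsub (fun p _ => by positivity) ?_
          intro p hp _
          simp only [mem_insert, mem_singleton] at hp
          rcases hp with rfl | rfl | rfl | rfl | rfl | rfl <;> norm_num
      _ ≤ 559 := by
          rw [prod_insert (by decide), prod_insert (by decide), prod_insert (by decide),
            prod_insert (by decide), prod_insert (by decide), prod_singleton]
          norm_num
  have h5 : 0 ≤ ∏ p ∈ N.primeFactors, (p : ℝ) := prod_nonneg fun p _ => by positivity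
  have h6 : (0 : ℝ) ≤ N := by positivity
  calc (∏ p ∈ N.primeFactors, (p : ℝ)) * ∏ p ∈ N.primeFactors, c p
      ≤ (∏ p ∈ N.primeFactors, (p : ℝ)) * 559 := mul_le_mul_of_nonneg_left h4 h5
    _ ≤ N * 559 := mul_le_mul_of_nonneg_right h3 (by norm_num)
    _ = 559 * N := by ring

end Pool.Agent.Helper718Gaps
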