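import Pool.Agent.Helper718_gaps.C

/-!
The power saving bound.
-/

set_option autoImplicit false

namespace Pool.Agent.Helper718Gaps

open Finset

/-- The pairs which are the closest coprime factorisation of their product. -/
def closest (n : ℕ) : Finset (ℕ × ℕ) :=
  (cop n).filter (fun x => ∀ y ∈ cop n, y.1 * y.2 = x.1 * x.2 → x.1 + x.2 ≤ y.1 + y.2)

theorem card_closest_le (n : ℕ) : (closest n).card ≤ n.divisors.card := by
  classical
  refine card_le_card_of_injOn (fun x => x.1 * x.2) ?_ ?_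
  · intro x hx
    rw [mem_coe, closest, mem_filter] at hx
    exact cop_mul_mem hx.1
  · intro x hx y hy hxy
    rw [mem_coe, closest, mem_filter] at hx hy
    simp only at hxy
    have h1 := hx.2 y hy.1 hxy.symm
    have h2 := hy.2 x hx.1 hxy
    exact pair_eq (mem_cop.1 hx.1).2.1 (mem_cop.1 hy.1).2.1 hxy (le_antisymm h1 h2)

theorem near_sum_le (n : ℕ) (hn : n ≠ 0) (r : ℝ) (hr : 1 ≤ r) (hrτ : r ^ 13 = n.divisors.card) :
    ∑ x ∈ closest n, (1 : ℝ) / ((x.2 : ℝ) - (x.1 : ℝ)) ≤ r ^ 12 * (2 + Real.log 2 + Real.log r) := by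
  classical
  set K := ⌈r⌉₊ with hK
  have hKr : r ≤ K := Nat.le_ceil r
  have hK1 : (K : ℝ) < r + 1 := Nat.ceil_lt_add_one (by linarith)
  have hKpos : 0 < K := Nat.ceil_pos.2 (by linarith)
  have hKpos' : (0 : ℝ) < K := by exact_mod_cast hKpos
  rw [← sum_filter_add_sum_filter_not (closest n) (fun x => x.2 - x.1 ≤ K)]
  -- the far differences
  have hfar : ∑ x ∈ (closest n).filter (fun x => ¬ (x.2 - x.1 ≤ K)),
      (1 : ℝ) / ((x.2 : ℝ) - (x.1 : ℝ)) ≤ r ^ 12 := by
    have h1 : ∀ x ∈ (closest n).filter (fun x => ¬ (x.2 - x.1 ≤ K)),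
        (1 : ℝ) / ((x.2 : ℝ) - (x.1 : ℝ)) ≤ 1 / r := by
      intro x hx
      rw [mem_filter] at hx
      have h2 : (K : ℝ) + x.1 ≤ x.2 := by
        have : K + x.1 ≤ x.2 := by omega
        exact_mod_cast this
      exact one_div_le_one_div_of_le (by linarith) (by linarith)
    refine (sum_le_sum h1).trans ?_
    rw [sum_const, nsmul_eq_mul]
    have h3 : (((closest n).filter (fun x => ¬ (x.2 - x.1 ≤ K))).card : ℝ) ≤ r ^ 13 := by
      rw [hrτ]
      exact_mod_cast (card_filter_le _ _).trans (card_closest_le n)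
    calc (((closest n).filter (fun x => ¬ (x.2 - x.1 ≤ K))).card : ℝ) * (1 / r)
        ≤ r ^ 13 * (1 / r) := mul_le_mul_of_nonneg_right h3 (by positivity)
      _ = r ^ 12 := by
          have : r ≠ 0 := by linarith
          field_simp
  -- the small differences
  have hsmall : ∑ x ∈ (closest n).filter (fun x => x.2 - x.1 ≤ K),
      (1 : ℝ) / ((x.2 : ℝ) - (x.1 : ℝ)) ≤ r ^ 12 * (1 + Real.log 2 + Real.log r) := by
    have hmaps : ∀ x ∈ (closest n).filter (fun x => x.2 - x.1 ≤ K), x.2 - x.1 - 1 ∈ range K := by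
      intro x hx
      rw [mem_filter, closest, mem_filter, mem_cop] at hx
      rw [mem_range]
      have := hx.1.1.2.1
      omega
    rw [← sum_fiberwise_of_maps_to hmaps]
    have hcard : ∀ i ∈ range K, ∑ x ∈ ((closest n).filter (fun x => x.2 - x.1 ≤ K)).filter
        (fun x => x.2 - x.1 - 1 = i), (1 : ℝ) / ((x.2 : ℝ) - (x.1 : ℝ)) ≤
        r ^ 12 * (((i + 1 : ℕ) : ℝ))⁻¹ := by
      intro i _
      have hval : ∀ x ∈ ((closest n).filter (fun x => x.2 - x.1 ≤ K)).filter
          (fun x => x.2 - x.1 - 1 = i), (1 : ℝ) / ((x.2 : ℝ) - (x.1 : ℝ)) = (((i + 1 : ℕ) : ℝ))⁻¹ := by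
        intro x hx
        rw [mem_filter, mem_filter, closest, mem_filter, mem_cop] at hx
        have h1 := hx.1.1.1.2.1
        have h2 : x.2 = x.1 + (i + 1) := by omega
        rw [h2]
        push_cast
        rw [one_div]
        congr 1
        ring
      rw [sum_congr rfl hval, sum_const, nsmul_eq_mul]
      refine mul_le_mul_of_nonneg_right ?_ (by positivity)
      have hsub : ((closest n).filter (fun x => x.2 - x.1 ≤ K)).filter
          (fun x => x.2 - x.1 - 1 = i) ⊆ (cop n).filter (fun x => x.2 = x.1 + (i + 1)) := by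
        intro x hx
        rw [mem_filter, mem_filter, closest, mem_filter] at hx
        rw [mem_filter]
        refine ⟨hx.1.1.1, ?_⟩
        have h1 := (mem_cop.1 hx.1.1.1).2.1
        omega
      have h3 := (pow_le_pow_left' (card_le_card hsub) 13).trans (card_diff_pow_le n (i + 1) hn)
      have h4 : ((((closest n).filter (fun x => x.2 - x.1 ≤ K)).filter
          (fun x => x.2 - x.1 - 1 = i)).card : ℝ) ^ 13 ≤ (r ^ 12) ^ 13 := by
        have h5 : (r ^ 12) ^ 13 = (n.divisors.card : ℝ) ^ 12 := by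
          rw [← hrτ]; ring
        rw [h5]
        exact_mod_cast h3
      exact le_of_pow_le_pow_left₀ (by norm_num) (by positivity) h4
    refine (sum_le_sum hcard).trans ?_
    rw [← mul_sum]
    refine mul_le_mul_of_nonneg_left ?_ (by positivity)
    have h1 := harmonic_le_one_add_log K
    have h2 : ∑ i ∈ range K, (((i + 1 : ℕ) : ℝ))⁻¹ = ((harmonic K : ℚ) : ℝ) := by
      unfold harmonic
      push_cast
      rfl
    rw [h2]
    refine h1.trans ?_
    have h3 : Real.log K ≤ Real.log (2 * r) := Real.log_le_log hKpos' (by linarith)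
    rw [Real.log_mul (by norm_num) (by linarith)] at h3
    linarith
  have : r ^ 12 * (2 + Real.log 2 + Real.log r) = r ^ 12 * (1 + Real.log 2 + Real.log r) + r ^ 12 := by
    ring
  rw [this]
  exact add_le_add hsmall hfar

theorem far_total_le (n : ℕ) :
    ∑ x ∈ (cop n).filter (fun x => x ∉ closest n), (1 : ℝ) / ((x.2 : ℝ) - (x.1 : ℝ)) ≤
      3 * (n.divisors.card : ℝ) ^ ((7 : ℝ) / 8) := by
  classical
  have hmaps : ∀ x ∈ (cop n).filter (fun x => x ∉ closest n), x.1 * x.2 ∈ n.divisors := by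
    intro x hx
    exact cop_mul_mem (mem_filter.1 hx).1
  rw [← sum_fiberwise_of_maps_to hmaps]
  have hN : ∀ N ∈ n.divisors, ∑ x ∈ ((cop n).filter (fun x => x ∉ closest n)).filter
      (fun x => x.1 * x.2 = N), (1 : ℝ) / ((x.2 : ℝ) - (x.1 : ℝ)) ≤
      (221 / 100) * (N : ℝ) ^ (-(1 / 8 : ℝ)) := by
    intro N hND
    have hNpos : 0 < N := Nat.pos_of_mem_divisors hND
    have hNpos' : (0 : ℝ) < N := by exact_mod_cast hNpos
    set A := (cop n).filter (fun x => x.1 * x.2 = N) with hA
    rcases A.eq_empty_or_nonempty with hAe | hAne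
    · have : ((cop n).filter (fun x => x ∉ closest n)).filter (fun x => x.1 * x.2 = N) = ∅ := by
        rw [← subset_empty, ← hAe, hA]
        intro x hx
        rw [mem_filter, mem_filter] at hx
        rw [mem_filter]
        exact ⟨hx.1.1, hx.2⟩
      rw [this, sum_empty]
      positivity
    · obtain ⟨x₀, hx₀, hmin⟩ := exists_min_image A (fun x => x.1 + x.2) hAne
      have hAprop : ∀ x ∈ A, x.1 * x.2 = N ∧ x.1 < x.2 := by
        intro x hx
        rw [hA, mem_filter] at hx
        exact ⟨hx.2, (mem_cop.1 hx.1).2.1⟩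
      have h1 := far_sum_le A N hNpos hAprop x₀ hx₀ hmin
      have hsub : ((cop n).filter (fun x => x ∉ closest n)).filter (fun x => x.1 * x.2 = N) ⊆
          A.erase x₀ := by
        intro x hx
        rw [mem_filter, mem_filter] at hx
        rw [mem_erase]
        refine ⟨?_, by rw [hA, mem_filter]; exact ⟨hx.1.1, hx.2⟩⟩
        rintro rfl
        apply hx.1.2
        rw [closest, mem_filter]
        refine ⟨hx.1.1, fun y hy hyx => hmin y ?_⟩
        rw [hA, mem_filter]
        exact ⟨hy, hyx.trans hx.2⟩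
      have h2 : ∑ x ∈ ((cop n).filter (fun x => x ∉ closest n)).filter (fun x => x.1 * x.2 = N),
          (1 : ℝ) / ((x.2 : ℝ) - (x.1 : ℝ)) ≤
          ∑ x ∈ A.erase x₀, (1 : ℝ) / ((x.2 : ℝ) - (x.1 : ℝ)) := by
        refine sum_le_sum_of_subset_of_nonneg hsub ?_
        intro x hx _
        have h3 := (hAprop x (mem_of_mem_erase hx)).2
        have h4 : (x.1 : ℝ) < x.2 := by exact_mod_cast h3
        have h5 : 0 < (x.2 : ℝ) - x.1 := by linarith
        positivity
      refine h2.trans (h1.trans ?_)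
      -- numerical part
      have hcard : A.card ≤ 2 ^ N.primeFactors.card :=
        card_fiber_le A N hNpos (fun x hx => by
          rw [hA, mem_filter] at hx
          exact ⟨hx.2, (mem_cop.1 hx.1).2.2⟩)
      have hk4 : (A.card : ℝ) ^ 4 ≤ 559 * N := by
        have : (A.card : ℝ) ≤ 2 ^ N.primeFactors.card := by exact_mod_cast hcard
        calc (A.card : ℝ) ^ 4 ≤ ((2 : ℝ) ^ N.primeFactors.card) ^ 4 := by gcongr
          _ = 16 ^ N.primeFactors.card := by
              rw [← pow_mul, mul_comm, pow_mul]; norm_num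
          _ ≤ 559 * N := sixteen_pow_le N hNpos
      set t : ℝ := (N : ℝ) ^ ((1 : ℝ) / 8) with ht
      have htpos : 0 < t := Real.rpow_pos_of_pos hNpos' _
      have ht8 : t ^ 8 = N := by
        rw [ht, ← Real.rpow_natCast, ← Real.rpow_mul hNpos'.le]
        norm_num
      have hsq : Real.sqrt (Real.sqrt N) = t ^ 2 := by
        have e1 : Real.sqrt (N : ℝ) = t ^ 4 := by
          rw [← ht8, show t ^ 8 = (t ^ 4) ^ 2 by ring]
          exact Real.sqrt_sq (by positivity)
        rw [e1, show t ^ 4 = (t ^ 2) ^ 2 by ring]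
        exact Real.sqrt_sq (by positivity)
      have hneg : (N : ℝ) ^ (-(1 / 8 : ℝ)) = t⁻¹ := Real.rpow_neg hNpos'.le _
      rw [hsq, hneg]
      set s := Real.sqrt (A.card : ℝ) with hs
      have hs2 : s ^ 2 = A.card := Real.sq_sqrt (by positivity)
      have hs8 : s ^ 8 ≤ (221 / 100 * t) ^ 8 := by
        have e1 : s ^ 8 = (s ^ 2) ^ 4 := by ring
        rw [e1, hs2, mul_pow, ht8]
        refine hk4.trans ?_
        refine mul_le_mul_of_nonneg_right (by norm_num) hNpos'.le
      have hst : s ≤ 221 / 100 * t := le_of_pow_le_pow_left₀ (by norm_num) (by positivity) hs8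
      rw [div_le_iff₀ (by positivity)]
      calc s ≤ 221 / 100 * t := hst
        _ = 221 / 100 * t⁻¹ * t ^ 2 := by
            field_simp
  refine (sum_le_sum hN).trans ?_
  rw [← mul_sum]
  have h1 := sum_rpow_le (1 / 8) (by norm_num) (by norm_num) n.divisors
    (fun m hm => Nat.pos_of_mem_divisors hm)
  have e : (1 - 1 / 8 : ℝ) = 7 / 8 := by norm_num
  rw [e] at h1
  have h2 : 0 ≤ (n.divisors.card : ℝ) ^ ((7 : ℝ) / 8) := by positivity
  calc (221 / 100 : ℝ) * ∑ i ∈ n.divisors, (i : ℝ) ^ (-(1 / 8 : ℝ))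
      ≤ (221 / 100) * ((n.divisors.card : ℝ) ^ ((7 : ℝ) / 8) / (7 / 8)) := by gcongr
    _ ≤ 3 * (n.divisors.card : ℝ) ^ ((7 : ℝ) / 8) := by linarith

/-- **The power saving bound.** -/
theorem main_bound (n : ℕ) (hn : n ≠ 0) :
    ∑ d ∈ n.divisors, ∑ e ∈ n.divisors.filter (fun e => d < e), (1 : ℝ) / ((e : ℝ) - (d : ℝ))
      ≤ (∑ g ∈ n.divisors, (1 : ℝ) / g) *
        ((3 + Real.log n.divisors.card / 13) * (n.divisors.card : ℝ) ^ ((12 : ℝ) / 13) +
          3 * (n.divisors.card : ℝ) ^ ((7 : ℝ) / 8)) := by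
  classical
  refine (gap_sum_le n).trans ?_
  refine mul_le_mul_of_nonneg_left ?_ (sum_nonneg fun g _ => by positivity)
  have hτ1 : 1 ≤ n.divisors.card := card_pos.2 ⟨1, Nat.one_mem_divisors.2 hn⟩
  have hτ : (1 : ℝ) ≤ n.divisors.card := by exact_mod_cast hτ1
  have hτ0 : (0 : ℝ) < n.divisors.card := by linarith
  set r : ℝ := (n.divisors.card : ℝ) ^ ((1 : ℝ) / 13) with hr
  have hr1 : 1 ≤ r := Real.one_le_rpow hτ (by norm_num)
  have hr13 : r ^ 13 = n.divisors.card := by
    rw [hr, ← Real.rpow_natCast, ← Real.rpow_mul hτ0.le]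
    norm_num
  have hr12 : r ^ 12 = (n.divisors.card : ℝ) ^ ((12 : ℝ) / 13) := by
    rw [hr, ← Real.rpow_natCast, ← Real.rpow_mul hτ0.le]
    norm_num
  have hlog : Real.log r = Real.log n.divisors.card / 13 := by
    rw [hr, Real.log_rpow hτ0]
    ring
  have hsplit : ∑ x ∈ cop n, (1 : ℝ) / ((x.2 : ℝ) - (x.1 : ℝ)) =
      ∑ x ∈ closest n, (1 : ℝ) / ((x.2 : ℝ) - (x.1 : ℝ)) +
      ∑ x ∈ (cop n).filter (fun x => x ∉ closest n), (1 : ℝ) / ((x.2 : ℝ) - (x.1 : ℝ)) := by
    rw [← sum_filter_add_sum_filter_not (cop n) (fun x => x ∈ closest n)]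
    congr 1
    refine sum_congr ?_ fun _ _ => rfl
    rw [filter_mem_eq_inter, inter_eq_right]
    exact filter_subset _ _
  rw [hsplit]
  refine add_le_add ?_ (far_total_le n)
  refine (near_sum_le n hn r hr1 hr13).trans ?_
  rw [hr12, hlog, mul_comm]
  refine mul_le_mul_of_nonneg_right ?_ (by positivity)
  have := Real.log_two_lt_d9
  linarith

end Pool.Agent.Helper718Gaps
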