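import Pool.Agent.Helper718_gaps.D

/-!
Numbers with many divisors.
-/

set_option autoImplicit false

namespace Pool.Agent.Helper718Gaps

open Finset

theorem exp_bound_1 : (897 : ℝ) ≤ Real.exp (34 / 5) := by
  have h1 : (897 : ℝ) ^ 5 ≤ (Real.exp (34 / 5)) ^ 5 := by
    rw [← Real.exp_nat_mul]
    have e : ((5 : ℕ) : ℝ) * (34 / 5) = ((34 : ℕ) : ℝ) * 1 := by norm_num
    rw [e, Real.exp_nat_mul]
    have h2 : (2.7182818283 : ℝ) ≤ Real.exp 1 := Real.exp_one_gt_d9.le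
    calc (897 : ℝ) ^ 5 ≤ (2.7182818283 : ℝ) ^ 34 := by norm_num
      _ ≤ (Real.exp 1) ^ 34 := by gcongr
  exact le_of_pow_le_pow_left₀ (by norm_num) (by positivity) h1

theorem exp_bound_2 : (59000 : ℝ) ≤ Real.exp 11 := by
  have e : (11 : ℝ) = ((11 : ℕ) : ℝ) * 1 := by norm_num
  rw [e, Real.exp_nat_mul]
  have h2 : (2.7182818283 : ℝ) ≤ Real.exp 1 := Real.exp_one_gt_d9.le
  calc (59000 : ℝ) ≤ (2.7182818283 : ℝ) ^ 11 := by norm_num
    _ ≤ (Real.exp 1) ^ 11 := by gcongr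

theorem numeric (τ : ℝ) (hτ : (2 : ℝ) ^ 128 ≤ τ) :
    (1 + Real.log τ) * ((3 + Real.log τ / 13) * τ ^ ((12 : ℝ) / 13) + 3 * τ ^ ((7 : ℝ) / 8)) < τ := by
  have hτ0 : 0 < τ := lt_of_lt_of_le (by positivity) hτ
  have hlog : 884 / 10 ≤ Real.log τ := by
    have h1 : Real.log ((2 : ℝ) ^ 128) ≤ Real.log τ := Real.log_le_log (by positivity) hτ
    rw [Real.log_pow] at h1
    have := Real.log_two_gt_d9
    push_cast at h1
    linarith
  obtain ⟨u, hu⟩ : ∃ u : ℝ, Real.log τ = 884 / 10 + 13 * u := ⟨(Real.log τ - 884 / 10) / 13, by ring⟩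
  have hu0 : 0 ≤ u := by linarith
  have hτe : τ = Real.exp (Real.log τ) := (Real.exp_log hτ0).symm
  have h12 : τ ^ ((12 : ℝ) / 13) = τ * (Real.exp (34 / 5 + u))⁻¹ := by
    rw [← Real.exp_neg]
    conv_lhs => rw [hτe]
    conv_rhs => rw [hτe]
    rw [Real.rpow_def_of_pos (Real.exp_pos _), Real.log_exp, ← Real.exp_add, hu]
    congr 1
    ring
  have h78 : τ ^ ((7 : ℝ) / 8) = τ * (Real.exp (1105 / 100 + 13 / 8 * u))⁻¹ := by
    rw [← Real.exp_neg]
    conv_lhs => rw [hτe]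
    conv_rhs => rw [hτe]
    rw [Real.rpow_def_of_pos (Real.exp_pos _), Real.log_exp, ← Real.exp_add, hu]
    congr 1
    ring
  rw [h12, h78, hu]
  have hE1 : 897 * (1 + u + u ^ 2 / 2) ≤ Real.exp (34 / 5 + u) := by
    rw [Real.exp_add]
    have := Real.quadratic_le_exp_of_nonneg hu0
    exact mul_le_mul exp_bound_1 this (by positivity) (Real.exp_pos _).le
  have hE2 : 59000 * (1 + 13 / 8 * u) ≤ Real.exp (1105 / 100 + 13 / 8 * u) := by
    rw [Real.exp_add]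
    have h1 := Real.add_one_le_exp (13 / 8 * u)
    have h2 : Real.exp 11 ≤ Real.exp (1105 / 100) := Real.exp_le_exp.2 (by norm_num)
    exact mul_le_mul (exp_bound_2.trans h2) (by linarith) (by positivity) (Real.exp_pos _).le
  set E1 := Real.exp (34 / 5 + u)
  set E2 := Real.exp (1105 / 100 + 13 / 8 * u)
  have hE1p : 0 < E1 := lt_of_lt_of_le (by positivity) hE1
  have hE2p : 0 < E2 := lt_of_lt_of_le (by positivity) hE2
  have a1 : (1 + (884 / 10 + 13 * u)) * (3 + (884 / 10 + 13 * u) / 13) / E1 ≤ 98 / 100 := by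
    rw [div_le_iff₀ hE1p]
    nlinarith
  have a2 : (1 + (884 / 10 + 13 * u)) * 3 / E2 ≤ 1 / 100 := by
    rw [div_le_iff₀ hE2p]
    nlinarith
  have : (1 + (884 / 10 + 13 * u)) * ((3 + (884 / 10 + 13 * u) / 13) * (τ * E1⁻¹) + 3 * (τ * E2⁻¹))
      = τ * ((1 + (884 / 10 + 13 * u)) * (3 + (884 / 10 + 13 * u) / 13) / E1 +
        (1 + (884 / 10 + 13 * u)) * 3 / E2) := by
    field_simp
  rw [this]
  calc τ * ((1 + (884 / 10 + 13 * u)) * (3 + (884 / 10 + 13 * u) / 13) / E1 +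
        (1 + (884 / 10 + 13 * u)) * 3 / E2) ≤ τ * (98 / 100 + 1 / 100) := by gcongr
    _ < τ := by linarith

/-- The inequality for all numbers with at least `2 ^ 128` divisors. -/
theorem many_divisors (n : ℕ) (hτ : 2 ^ 128 ≤ n.divisors.card) :
    ∑ d ∈ n.divisors, ∑ e ∈ n.divisors.filter (fun e => d < e), (1 : ℝ) / ((e : ℝ) - (d : ℝ))
      < (n.divisors.card : ℝ) := by
  have hn : n ≠ 0 := by
    rintro rfl
    simp at hτ
  have hτ' : (2 : ℝ) ^ 128 ≤ (n.divisors.card : ℝ) := by exact_mod_cast hτ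
  refine (main_bound n hn).trans_lt (lt_of_le_of_lt ?_ (numeric _ hτ'))
  have hlog : 0 ≤ Real.log n.divisors.card := Real.log_nonneg (le_trans (by norm_num) hτ')
  refine mul_le_mul_of_nonneg_right (sum_inv_le _ fun m hm => Nat.pos_of_mem_divisors hm) ?_
  positivity

end Pool.Agent.Helper718Gaps
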